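import Pool.Agent.W46.AC.Stm
import Pool.Agent.W46.HM.Final
import Pool.Agent.W193.AC.INT
import Pool.Agent.W962.AC.CMP

set_option autoImplicit false
set_option maxHeartbeats 1000000

/-!
# MP_ac5134: the Kakeya inequality in tube form for all translates in high dimensions

Work in `ℝ^n = ℝ^d × ℝ`, `n = d + 1 ≥ 26`, with its Euclidean norm (`Space d`), and let `P` be the
paraboloid `{(ω, |ω|²)}`, `|ω| ≤ 1`.  The box dual to the cap at `ω` is `box N (nor ω) f 0`: its long
side `N²` is in the direction of the unit normal `nor ω = (-2ω, 1)/√(1+4|ω|²)` and its other sides `N`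
are in the directions of an arbitrary orthonormal frame `f` of the orthogonal complement.

For ALL translates the conjectured comparison with the centred family holds without any loss for every
`p` in `[1 + 1.6752/(n-1), ∞]`, and with the loss `N ^ lossExponent d p` for every `p` in `[1, ∞]`.
-/

open MeasureTheory Set ENNReal

namespace Pool.Agent.Results.MP_ac5134_an.ArithmeticTranslates

open Pool.Agent.H810R3.Tub

/-- The caps have centres `ω i` in the closed unit ball, `σ/N`-separated and at least `κ N^d` in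
number, and `f i` is an orthonormal frame of the orthogonal complement of the normal at `ω i`. -/
def Caps {d : ℕ} {ι : Type} [Fintype ι] (σ κ N : ℝ) (ω : ι → Vec d) (f : ι → Fin d → Space d) : Prop :=
  (∀ i, ‖ω i‖ ≤ 1) ∧ (∀ i j, i ≠ j → σ / N ≤ ‖ω i - ω j‖) ∧ κ * N ^ d ≤ (Fintype.card ι : ℝ) ∧
    ∀ i, Orthonormal ℝ (Fin.cons (nor (ω i)) (f i) : Fin (d + 1) → Space d)

/-- The sum of the indicators of the boxes of the caps with centres `a i`. -/
noncomputable def boxSum {d : ℕ} {ι : Type} [Fintype ι] (N : ℝ) (ω : ι → Vec d)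
    (f : ι → Fin d → Space d) (a : ι → Space d) (y : Space d) : ℝ :=
  ∑ i, (box N (nor (ω i)) (f i) (a i)).indicator (fun _ => (1 : ℝ)) y

/-- The inequality of Q1 with the constant `C` at the exponent `p`, for the boxes with centres `a i`. -/
def Ineq {d : ℕ} {ι : Type} [Fintype ι] (C N : ℝ) (p : ℝ≥0∞) (ω : ι → Vec d)
    (f : ι → Fin d → Space d) (a : ι → Space d) : Prop :=
  eLpNorm (boxSum N ω f a) p volume ≤ ENNReal.ofReal C * eLpNorm (boxSum N ω f 0) p volume

/-- The number `c = 1.6752`. -/
noncomputable def slope : ℝ := 16752 / 10000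

/-- The exponent lost, as a function of `u = 1 - 1/p`: `max 0 (min (d (1 - 1/c) u) (1 - u (d + c)/c))`. -/
noncomputable def lossOf (d u : ℝ) : ℝ :=
  max 0 (min (d * (1 - 1 / slope) * u) (1 - u * (d + slope) / slope))

/-- The exponent of `N` lost at the exponent `p`; it is `0` for `p ≥ 1 + c/d`. -/
noncomputable def lossExponent (d : ℕ) (p : ℝ≥0∞) : ℝ := lossOf d (1 - 1 / p.toReal)

/-- **The Kakeya inequality in tube form for all translates, `n ≥ 26`: no loss for
`p ≥ 1 + 1.6752/(n-1)`, loss `N ^ lossExponent d p` for all `p` in `[1, ∞]`.** -/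
theorem result (d : ℕ) (hd : 25 ≤ d) (σ κ : ℝ) (hσ : 0 < σ) (hσ1 : σ ≤ 1) (hκ : 0 < κ) :
    ∃ C : ℝ, 0 < C ∧ ∀ N : ℝ, 1 ≤ N → ∀ (ι : Type) [Fintype ι] (ω : ι → Vec d)
      (f : ι → Fin d → Space d), Caps σ κ N ω f → ∀ (a : ι → Space d) (p : ℝ≥0∞), 1 ≤ p →
        Ineq (C * N ^ lossExponent d p) N p ω f a ∧
          (ENNReal.ofReal (1 + slope / d) ≤ p → Ineq C N p ω f a) := by
  have hd0 : (0 : ℝ) < d := by
    have : (25 : ℝ) ≤ d := by exact_mod_cast hd
    linarith
  obtain ⟨E, hE, hI⟩ := Pool.Agent.W193.AC.INT Pool.Agent.W46.HM.tubeq d hd σ hσ hσ1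
  obtain ⟨D, hD, hC⟩ := Pool.Agent.W962.AC.CMP d hd κ E hκ hE
  refine ⟨D, by linarith, ?_⟩
  intro N hN ι _ ω f hcaps a p hp
  obtain ⟨hω, hsep, hcard, hf⟩ := hcaps
  have hN0 : 0 < N := by linarith
  have hne : Nonempty ι := by
    have h1 : 0 < κ * N ^ d := by positivity
    have h2 : (0 : ℝ) < (Fintype.card ι : ℝ) := by linarith
    have h3 : 0 < Fintype.card ι := by exact_mod_cast h2
    exact Fintype.card_pos_iff.1 h3
  have key : eLpNorm (boxSum N ω f a) p volume ≤
      ENNReal.ofReal (D * N ^ lossExponent d p) * eLpNorm (boxSum N ω f 0) p volume :=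
    hC hN ω f hf a hcard (hI N hN ι ω f a hω hsep hf) p hp
  refine ⟨key, fun hp' => ?_⟩
  have hz : lossExponent d p = 0 := by
    unfold lossExponent lossOf slope
    unfold slope at hp'
    apply max_eq_left
    apply min_le_of_right_le
    have hu : (16752 / 10000) / ((d : ℝ) + 16752 / 10000) ≤ 1 - 1 / p.toReal := by
      rcases eq_or_ne p ∞ with ht | ht
      · have h0 : (1 : ℝ) - 1 / p.toReal = 1 := by rw [ht]; simp
        rw [h0, div_le_one (by positivity)]
        linarith
      · have h1 : 1 + (16752 / 10000) / (d : ℝ) ≤ p.toReal :=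
          (ENNReal.ofReal_le_iff_le_toReal ht).1 hp'
        have h2 : 1 / p.toReal ≤ 1 / (1 + (16752 / 10000) / (d : ℝ)) :=
          one_div_le_one_div_of_le (by positivity) h1
        have h3 : 1 / (1 + (16752 / 10000) / (d : ℝ)) =
            1 - (16752 / 10000) / ((d : ℝ) + 16752 / 10000) := by
          field_simp
          ring
        linarith
    have h4 : 1 ≤ (1 - 1 / p.toReal) * ((d : ℝ) + 16752 / 10000) / (16752 / 10000) := by
      rw [le_div_iff₀ (by norm_num)]
      have h5 := mul_le_mul_of_nonneg_right hu (by positivity : (0 : ℝ) ≤ (d : ℝ) + 16752 / 10000)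
      rw [div_mul_cancel₀ _ (by positivity)] at h5
      linarith
    linarith
  rw [hz, Real.rpow_zero, mul_one] at key
  exact key

end Pool.Agent.Results.MP_ac5134_an.ArithmeticTranslates
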