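import Pool.Agent.W772.LP5

set_option autoImplicit false
set_option maxHeartbeats 1000000

/-!
# MP_ac5134: a family of translates with the loss `(log N)^(n-1)`

Work in `ℝ^n = ℝ^d × ℝ`, `n = d + 1`, with its Euclidean norm (`Space d`), and let `P` be the
paraboloid `{(ω, |ω|²)}`, `|ω| ≤ 1`.  The box dual to the cap at `ω` is `box N (nor ω) f 0`: its long
side `N²` is in the direction of the unit normal `nor ω = (-2ω, 1)/√(1+4|ω|²)` and its other sides `N`
are in the directions of an arbitrary orthonormal frame `f` of the orthogonal complement.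

For every `N ≥ 2` there is a function `g` of one variable such that, for every choice of about `N^d`
separated caps, the translates centred at the points `(N² g(ω_1), …, N² g(ω_d), 0)` have a union of
volume at most `C (log N)^(-(n-1))` times the sum of their volumes, and, for `1 < p < n/(n-1)`, their sum of
indicators has an `L^p` norm at least `c_p (log N)^((n-1)(1-1/p))` times that of the centred family.
-/

open MeasureTheory Set ENNReal

namespace Pool.Agent.Results.MP_ac5134_an.LogPowerLoss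

open Pool.Agent.H810R3.Tub Pool.Agent.W772.LP

/-- The caps have centres `ω i` in the closed unit ball, `σ/N`-separated and at least `κ N^d` in
number, and `f i` is an orthonormal frame of the orthogonal complement of the normal at `ω i`. -/
def Caps {d : ℕ} {ι : Type} [Fintype ι] (σ κ N : ℝ) (ω : ι → Vec d) (f : ι → Fin d → Space d) : Prop :=
  (∀ i, ‖ω i‖ ≤ 1) ∧ (∀ i j, i ≠ j → σ / N ≤ ‖ω i - ω j‖) ∧ κ * N ^ d ≤ (Fintype.card ι : ℝ) ∧
    ∀ i, Orthonormal ℝ (Fin.cons (nor (ω i)) (f i) : Fin (d + 1) → Space d)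

/-- The sum of the indicators of the boxes of the caps with centres `a i`. -/
noncomputable def boxSum {d : ℕ} {ι : Type} [Fintype ι] (N : ℝ) (ω : ι → Vec d)
    (f : ι → Fin d → Space d) (a : ι → Space d) (y : Space d) : ℝ :=
  ∑ i, (box N (nor (ω i)) (f i) (a i)).indicator (fun _ => (1 : ℝ)) y

/-- The centre `(N² g(ω_1), …, N² g(ω_d), 0)`. -/
noncomputable def centre {d : ℕ} (N : ℝ) (g : ℝ → ℝ) (ω : Vec d) : Space d :=
  WithLp.toLp 2 (WithLp.toLp 2 (fun j => N ^ 2 * g (ω j)), 0)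

/-- The volume of the union is at most `C (log N)^(-d)` times the sum of the volumes. -/
def VolumeLoss {d : ℕ} {ι : Type} [Fintype ι] (C N : ℝ) (ω : ι → Vec d) (f : ι → Fin d → Space d)
    (a : ι → Space d) : Prop :=
  volume (⋃ i, box N (nor (ω i)) (f i) (a i)) ≤
    ENNReal.ofReal (C / Real.log N ^ d) * ∑ i, volume (box N (nor (ω i)) (f i) (a i))

/-- The `L^p` norm is at least `c (log N)^(d(1-1/p))` times that of the centred family. -/
def NormLoss {d : ℕ} {ι : Type} [Fintype ι] (c p N : ℝ) (ω : ι → Vec d) (f : ι → Fin d → Space d)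
    (a : ι → Space d) : Prop :=
  ENNReal.ofReal (c * Real.log N ^ (d * (1 - 1 / p))) *
      eLpNorm (boxSum N ω f 0) (ENNReal.ofReal p) volume ≤
    eLpNorm (boxSum N ω f a) (ENNReal.ofReal p) volume

/-- **Translates of product type with volume loss `(log N)^(n-1)`, and the corresponding loss in `L^p`
for `1 < p < n/(n-1)`.** -/
theorem result (d : ℕ) (hd : 1 ≤ d) (σ κ : ℝ) (hσ : 0 < σ) (hσ1 : σ ≤ 1) (hκ : 0 < κ) :
    ∃ (C : ℝ) (c : ℝ → ℝ), 0 < C ∧ (∀ p, 1 < p → p < ((d : ℝ) + 1) / d → 0 < c p) ∧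
      ∀ N : ℝ, 2 ≤ N → ∃ g : ℝ → ℝ, ∀ (ι : Type) [Fintype ι] (ω : ι → Vec d)
        (f : ι → Fin d → Space d), Caps σ κ N ω f →
        VolumeLoss C N ω f (fun i => centre N g (ω i)) ∧
        ∀ p : ℝ, 1 < p → p < ((d : ℝ) + 1) / d → NormLoss (c p) p N ω f (fun i => centre N g (ω i)) := by
  classical
  have hd0 : (0 : ℝ) < d := by exact_mod_cast hd
  have hpd : ∀ p : ℝ, p < ((d : ℝ) + 1) / d → p < 1 + 1 / d := by
    intro p hp
    have : ((d : ℝ) + 1) / d = 1 + 1 / d := by field_simp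
    rwa [this] at hp
  -- the constants
  have hc : ∀ p : ℝ, ∃ c : ℝ, 1 < p → p < ((d : ℝ) + 1) / d → (0 < c ∧ ∀ (N : ℝ), 2 ≤ N → ∀ (ι : Type)
      [Fintype ι] (ω : ι → Vec d) (f : ι → Fin d → Space d),
      (∀ i, ‖ω i‖ ≤ 1) → (∀ i j, i ≠ j → σ / N ≤ ‖ω i - ω j‖) → κ * N ^ d ≤ (Fintype.card ι : ℝ) →
      (∀ i, Orthonormal ℝ (Fin.cons (nor (ω i)) (f i) : Fin (d + 1) → Space d)) →
      ENNReal.ofReal (c * Real.log N ^ (d * (p - 1))) * ∫⁻ y, Fb N ω f (fun _ => 0) y ^ p ≤
        ∫⁻ y, Fb N ω f (fun i => pos N (ω i)) y ^ p) := by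
    intro p
    by_cases h : 1 < p ∧ p < ((d : ℝ) + 1) / d
    · obtain ⟨c, hc0, hc⟩ := comp_lower d hd σ κ hσ hσ1 hκ p h.1 (hpd p h.2)
      exact ⟨c, fun _ _ => ⟨hc0, hc⟩⟩
    · exact ⟨0, fun h1 h2 => absurd ⟨h1, h2⟩ h⟩
  choose c hc using hc
  refine ⟨(1 + d) * (200 * (1 + d)) ^ d / κ, fun p => c p ^ (1 / p), by positivity, ?_, ?_⟩
  · intro p h1 h2
    exact Real.rpow_pos_of_pos (hc p h1 h2).1 _
  intro N hN
  have hN1 : 1 < N := by linarith
  have hlog : 0 < Real.log N := Real.log_pos hN1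
  refine ⟨g (2 * (1 + d)) (kN N), ?_⟩
  intro ι _ ω f hcaps
  obtain ⟨hω, hsep, hcard, hf⟩ := hcaps
  have hcentre : ∀ i, centre N (g (2 * (1 + d)) (kN N)) (ω i) = pos N (ω i) := fun i => rfl
  simp only [hcentre]
  refine ⟨?_, ?_⟩
  · unfold VolumeLoss
    refine (union_vol d hd hN1 ω f hω hf).trans ?_
    rw [vol_sum hN1.le hf, ← ENNReal.ofReal_mul (by positivity)]
    apply ENNReal.ofReal_le_ofReal
    have h1 : κ * N ^ (2 * (d + 1)) ≤ (Fintype.card ι : ℝ) * N ^ (d + 2) := by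
      calc κ * N ^ (2 * (d + 1)) = (κ * N ^ d) * N ^ (d + 2) := by ring
        _ ≤ _ := mul_le_mul_of_nonneg_right hcard (by positivity)
    calc (1 + d) * (200 * (1 + d)) ^ d * N ^ (2 * (d + 1)) * (1 / Real.log N) ^ d
        = (1 + d) * (200 * (1 + d)) ^ d / κ / Real.log N ^ d * (κ * N ^ (2 * (d + 1))) := by
          rw [one_div, inv_pow]
          field_simp
      _ ≤ _ := mul_le_mul_of_nonneg_left h1 (by positivity)
  · intro p hp1 hp2
    unfold NormLoss
    have hp0 : 0 < p := by linarith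
    obtain ⟨hc0, hcl⟩ := hc p hp1 hp2
    have h := hcl N hN ι ω f hω hsep hcard hf
    have hpe : ENNReal.ofReal p ≠ 0 := by
      rw [ne_eq, ENNReal.ofReal_eq_zero, not_le]
      exact hp0
    rw [eLpNorm_eq_lintegral_rpow_enorm_toReal hpe ENNReal.ofReal_ne_top,
      eLpNorm_eq_lintegral_rpow_enorm_toReal hpe ENNReal.ofReal_ne_top, ENNReal.toReal_ofReal hp0.le]
    have e1 : ∫⁻ y : Space d, ‖boxSum N ω f (fun i => pos N (ω i)) y‖ₑ ^ p =
        ∫⁻ y, Fb N ω f (fun i => pos N (ω i)) y ^ p := by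
      refine lintegral_congr fun y => ?_
      unfold boxSum
      rw [enorm_sum_box]
    have e2 : ∫⁻ y : Space d, ‖boxSum N ω f 0 y‖ₑ ^ p = ∫⁻ y, Fb N ω f (fun _ => 0) y ^ p := by
      refine lintegral_congr fun y => ?_
      unfold boxSum
      rw [← enorm_sum_box]
      rfl
    rw [e1, e2]
    have h2 := ENNReal.rpow_le_rpow h (by positivity : (0 : ℝ) ≤ 1 / p)
    refine le_trans (le_of_eq ?_) h2
    rw [ENNReal.mul_rpow_of_nonneg _ _ (by positivity), ENNReal.ofReal_rpow_of_pos (by positivity),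
      Real.mul_rpow hc0.le (by positivity), ← Real.rpow_mul hlog.le]
    congr 4
    field_simp

end Pool.Agent.Results.MP_ac5134_an.LogPowerLoss
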