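import Pool.Agent.W772.Tri5

set_option autoImplicit false
set_option maxHeartbeats 1000000

/-!
# MP_ac5134: the Kakeya inequality in tube form for triangular translates

Work in `ℝ^n = ℝ^d × ℝ`, `n = d + 1`, with its Euclidean norm (`Space d`), and let `P` be the
paraboloid `{(ω, |ω|²)}`, `|ω| ≤ 1`.  The box dual to the cap at `ω` is `box N (nor ω) f 0`: its long
side `N²` is in the direction of the unit normal `nor ω = (-2ω, 1)/√(1+4|ω|²)` and its other sides `N`
are in the directions of an arbitrary orthonormal frame `f` of the orthogonal complement.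

Every translate of the box at `ω` can be given by the point `(β, 0)` where its axis meets the
hyperplane of height `0` and by the height `s` of its centre.  The translates are called triangular if,
in some orthonormal basis of `ℝ^d`, the `j`-th coordinate of `β` is, up to `K N`, an arbitrary
function of the first `j` coordinates of `ω` alone; no regularity of these functions is assumed.
For `n = 2` this is no restriction.

For all triangular translates with heights at most `S N²` the conjectured comparison with the centred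
family holds for every `p` in `[1, ∞]`, with the constant
`C ((1 + K + S)^n (1 + log N))^θ`, `θ = min ((n-1)(1-1/p)) (1/p)`.
-/

open MeasureTheory Set ENNReal NNReal

namespace Pool.Agent.Results.MP_ac5134_an.TriangularTranslates

open Pool.Agent.H810R3.Tub Pool.Agent.W772

/-- The caps have centres `ω i` in the closed unit ball, `σ/N`-separated and at least `κ N^d` in
number, and `f i` is an orthonormal frame of the orthogonal complement of the normal at `ω i`. -/
def Caps {d : ℕ} {ι : Type} [Fintype ι] (σ κ N : ℝ) (ω : ι → Vec d) (f : ι → Fin d → Space d) : Prop :=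
  (∀ i, ‖ω i‖ ≤ 1) ∧ (∀ i j, i ≠ j → σ / N ≤ ‖ω i - ω j‖) ∧ κ * N ^ d ≤ (Fintype.card ι : ℝ) ∧
    ∀ i, Orthonormal ℝ (Fin.cons (nor (ω i)) (f i) : Fin (d + 1) → Space d)

/-- The sum of the indicators of the boxes of the caps with centres `a i`. -/
noncomputable def boxSum {d : ℕ} {ι : Type} [Fintype ι] (N : ℝ) (ω : ι → Vec d)
    (f : ι → Fin d → Space d) (a : ι → Space d) (y : Space d) : ℝ :=
  ∑ i, (box N (nor (ω i)) (f i) (a i)).indicator (fun _ => (1 : ℝ)) y

/-- The positions `β i` are triangular in the orthonormal coordinates given by `U`, up to `K N`: if the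
first `j` coordinates of two cap centres agree up to `σ/N`, then the `j`-th coordinates of the two
positions agree up to `K N`. -/
def Triangular {d : ℕ} {ι : Type} (U : Vec d ≃ₗᵢ[ℝ] Vec d) (σ K N : ℝ) (ω β : ι → Vec d) : Prop :=
  ∀ (i i' : ι) (j : Fin d), (∀ l, l ≤ j → |U (ω i) l - U (ω i') l| ≤ σ / N) →
    |U (β i) j - U (β i') j| ≤ K * N

/-- **The Kakeya inequality in tube form, for all `p` in `[1, ∞]`, for triangular translates.** -/
theorem result (d : ℕ) (hd : 1 ≤ d) (σ κ : ℝ) (hσ : 0 < σ) (hσ1 : σ ≤ 1) (hκ : 0 < κ) :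
    ∃ C : ℝ, 0 < C ∧ ∀ (U : Vec d ≃ₗᵢ[ℝ] Vec d) (K S : ℝ≥0) (N : ℝ), 1 ≤ N →
      ∀ (ι : Type) [Fintype ι] (ω β : ι → Vec d) (s : ι → ℝ) (f : ι → Fin d → Space d),
        Caps σ κ N ω f → (∀ i, |s i| ≤ S * N ^ 2) → Triangular U σ K N ω β →
        ∀ p : ℝ≥0∞, 1 ≤ p →
          eLpNorm (boxSum N ω f (fun i => WithLp.toLp 2 (β i + s i • (-(2 : ℝ) • ω i), s i))) p volume ≤
            ENNReal.ofReal (C * ((1 + K + S : ℝ) ^ (d + 1) * (1 + Real.log N)) ^
              min ((d : ℝ) * (1 - 1 / p.toReal)) (1 / p.toReal)) *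
            eLpNorm (boxSum N ω f 0) p volume := by
  obtain ⟨E, hE0, hE⟩ := tri_int d hd σ hσ hσ1
  obtain ⟨D, hD1, hD⟩ := compare_tri d hd κ E hκ hE0
  refine ⟨D, by linarith, ?_⟩
  intro U K S N hN ι _ ω β s f hcaps hs htri p hp
  obtain ⟨hω, hsep, hcard, hf⟩ := hcaps
  have hN0 : 0 < N := by linarith
  have hne : Nonempty ι := by
    have h1 : 0 < κ * N ^ d := by positivity
    have h2 : (0 : ℝ) < (Fintype.card ι : ℝ) := by linarith
    have h3 : 0 < Fintype.card ι := by exact_mod_cast h2
    exact Fintype.card_pos_iff.1 h3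
  have hlogN : 0 ≤ Real.log N := Real.log_nonneg hN
  have hW : (1 : ℝ) ≤ 1 + K + S := by
    have h1 : (0 : ℝ) ≤ K := K.2
    have h2 : (0 : ℝ) ≤ S := S.2
    linarith
  have hY : (1 : ℝ) ≤ (1 + K + S : ℝ) ^ (d + 1) * (1 + Real.log N) := by
    have h1 : (1 : ℝ) ≤ (1 + K + S : ℝ) ^ (d + 1) := one_le_pow₀ hW
    nlinarith
  exact hD hN hY ω f hf _ hcard (hE U K S N K.2 S.2 hN ι ω β s f hω hsep hf hs htri) p hp

end Pool.Agent.Results.MP_ac5134_an.TriangularTranslates
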